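import Pool.Agent.H7.CP.Targets
import Pool.Agent.H33.HD.VD

/-!
# MP_e37c09_lc, module CHR: coherence at almost all points of `Sg`
-/

open Ordinal Cardinal Order Set
open scoped ZFSet

universe u

namespace Pool.Agent.H77.CP.CHR

open _root_.HD

/-- an ordinal of cofinality greater than `M` does not have cofinality `M` -/
theorem not_cf_of_lt {M : Cardinal.{u}} {ν : Ordinal.{u}} (h : M < ν.cof) : ¬ Cf M.ord ν := by
  intro hc
  have h1 : ν.cof = M := Cardinal.ord_injective hc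
  rw [h1] at h
  exact lt_irrefl _ h

/-- the closure points of the successor are limit ordinals -/
theorem limit_of_closed {ν : Ordinal.{u}} (h0 : 0 < ν) (h : ∀ y < ν, succ y < ν) :
    IsSuccLimit ν := by
  refine ⟨?_, fun a ha => ?_⟩
  · intro hm
    exact absurd h0 (not_lt.2 (hm (bot_le)))
  · have := h a ha.lt
    exact absurd this (not_lt.2 (ha.ge_of_gt (lt_succ a)))

theorem X (hNRM : T_NRM.{u}) : T_CHR.{u} := by
  intro en hen M K lam Q f c A hM hM0 hMK hK hEQ hAt hA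
  have hK0 : ℵ₀ < K := hM0.trans hMK
  have hKc : K.ord.cof = K := hK.cof_ord
  have hK0' : ℵ₀ < K.ord.cof := by rw [hKc]; exact hK0
  have hPC : T_PC.{u} := Pool.Agent.H92.HD.pc
  -- the relation at `K`
  have hHK : ∀ X : Set Ordinal.{u},
      (Hc en M.ord c A K.ord X ↔ Pos M.ord K.ord {ξ | ξ ∈ E en c ∧ A ξ X}) := by
    intro X
    constructor
    · rintro (⟨-, h, -⟩ | h)
      · exact absurd h (not_cf_of_lt (by rw [hKc]; exact hMK))
      · exact h
    · intro h
      exact Or.inr h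
  -- definability
  have hqd : ∀ z, DS {ξ | A ξ {a | Q (f z) a}} := by
    intro z
    have h1 : DO fun w : ℕ → Ordinal.{u} => Q (f z) (w 0) := DO.sect1 hEQ.dr (f z)
    exact hA.dfn (fun a _ => Q (f z) a) h1 0
  -- the exceptional sets are null
  have hB : ∀ z, ¬ Pos M.ord K.ord {ξ | ξ ∈ E en c ∧
      ¬ (A ξ {a | Q (f z) a} ↔ Hc en M.ord c A K.ord {a | Q (f z) a})} := by
    intro z hp
    by_cases hz : Hc en M.ord c A K.ord {a | Q (f z) a}
    · obtain ⟨x, hx⟩ := (All.ea en hen).2.2.1 _ (hqd z) K.ord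
      refine hAt.ult x ⟨?_, ?_⟩
      · refine ((hHK _).1 hz).mono fun b hb h1 _ => ⟨h1.1, ?_⟩
        rw [hx]
        exact ⟨h1.2, hb⟩
      · refine hp.mono fun b hb h1 _ => ⟨h1.1, fun h2 => h1.2 ?_⟩
        rw [hx] at h2
        exact ⟨fun _ => hz, fun _ => h2.1⟩
    · refine hz ((hHK _).2 (hp.mono fun b hb h1 _ => ⟨h1.1, ?_⟩))
      by_contra h2
      exact h1.2 ⟨fun h3 => absurd h3 h2, fun h3 => absurd h3 hz⟩
  choose C hC1 hC2 hC3 using fun z => hNRM M K hM hK hMK hK0 _ (hB z)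
  have hD := Pool.Agent.H33.HD.VD.diag hK hK0 C fun a _ => hC1 a
  have hL := All.ve K hK hK0 succ fun x hx =>
    (Ordinal.one_lt_cof_iff.1 (Cardinal.one_lt_aleph0.trans hK0')).succ_lt hx
  refine ⟨_, All.ci K.ord _ _ hK0' hD hL, ?_⟩
  rintro ν ⟨⟨-, hν1⟩, hν2, hν3⟩ hνK hS z hz
  have hlim : IsSuccLimit ν := limit_of_closed hν2 hν3
  have hνC : ν ∈ C z := hν1 z hz
  rcases hS with ⟨h1, h2⟩ | h1
  · -- `ν` is a point of the atom
    have hnp : ∀ S, ¬ Pos M.ord ν S := fun S hp =>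
      not_cf_of_lt (hPC M ν S hM hlim hp) h2
    have hν : ν ∉ {ξ | ξ ∈ E en c ∧
        ¬ (A ξ {a | Q (f z) a} ↔ Hc en M.ord c A K.ord {a | Q (f z) a})} := hC3 z ν hνC hνK h2
    have h3 : A ν {a | Q (f z) a} ↔ Hc en M.ord c A K.ord {a | Q (f z) a} := by
      by_contra h4
      exact hν ⟨h1, h4⟩
    rw [← h3]
    constructor
    · intro h4
      exact Or.inl ⟨h1, h2, h4⟩
    · rintro (⟨-, -, h4⟩ | h4)
      · exact h4
      · exact absurd h4 (hnp _)
  · -- the atom is positive at `ν`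
    have h2 : M < ν.cof := hPC M ν _ hM hlim h1
    have h0 : ℵ₀ < ν.cof := hM0.trans h2
    have hnull := hC2 z ν hνC hνK h0
    have hHν : Hc en M.ord c A ν {a | Q (f z) a} ↔
        Pos M.ord ν {ξ | ξ ∈ E en c ∧ A ξ {a | Q (f z) a}} := by
      constructor
      · rintro (⟨-, h, -⟩ | h)
        · exact absurd h (not_cf_of_lt h2)
        · exact h
      · intro h
        exact Or.inr h
    rw [hHν]
    constructor
    · intro h3
      refine (pos_diff All.va h0 h1 hnull).mono fun b hb h4 _ => ⟨h4.1, ?_⟩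
      by_contra h5
      exact h4.2 ⟨h4.1, fun h6 => h5 (h6.2 h3)⟩
    · intro h3
      by_contra h4
      refine hnull (h3.mono fun b hb h5 _ => ⟨h5.1, fun h6 => h4 (h6.1 h5.2)⟩)

end Pool.Agent.H77.CP.CHR
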