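import Pool.Agent.H7.CP.Targets
import Pool.Agent.H20.HD9.LX

/-!
# MP_e37c09_lc, module HCO: almost all points of cofinality `ω` are in `Th`
-/

open Ordinal Cardinal Order Set
open scoped ZFSet

universe u

namespace Pool.Agent.H77.CP.HCO

open _root_.HD

theorem X : T_HCO.{u} := by
  intro D K lam Q f t X H W hD hD0 hK hDK hW ht hE hF hX hB
  have hSR : T_SR.{u} := Pool.Agent.H48.HD.SR.sr
  have hKc : K.ord.cof = K := hK.cof_ord
  have hDle : D ≤ K.ord.cof := by rw [hKc]; exact hDK.le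
  have hK0 : ℵ₀ < K := hD0.trans hDK
  have hlim : IsSuccLimit K.ord :=
    Ordinal.one_lt_cof_iff.1 (Cardinal.one_lt_aleph0.trans (by rw [hKc]; exact hK0))
  obtain ⟨C0, hC0, hC01⟩ := All.gdd K lam Q f t hK hK0 ht hE
  have hR := hSR D ℵ₀ K.ord W hD hD0 hDle hW Cardinal.isRegular_aleph0 hD0 _ hB
  have hN := All.nxx D K lam W hD hD0 hK hDK hW hF
  have hall : {ν : Ordinal.{u} | False} ∈ W := by
    filter_upwards [hW.lt, Pool.Agent.H20.HD9.LX.club_mem hW hlim hC0, hX, hR, hN] with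
      ν h1 h4 h8 h6 h7
    obtain ⟨h8, h9, h13⟩ := h8
    have h10 := pos_diff All.va h7.1 h6 (hC01 ν h4 h1 h7 h9)
    obtain ⟨γ, hγ, -, ⟨h11, h12⟩, -⟩ := h10 univ ⟨fun a ha => by
      have hνl : IsSuccLimit ν :=
        Ordinal.one_lt_cof_iff.1 (Cardinal.one_lt_aleph0.trans h7.1)
      exact ⟨succ a, hνl.succ_lt ha, lt_succ a, trivial⟩, fun _ _ _ _ => trivial⟩
    exact h11 ⟨ν, hγ, h1, h8, not_not.1 h12, fun z hz => h13 z (hz.trans hγ)⟩
  exact absurd (W.nonempty_of_mem hall) (by simp)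

end Pool.Agent.H77.CP.HCO
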